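import Mathlib

set_option autoImplicit false

namespace Pool.Agent.Results.MP_2dea4c_co.AllK

open Finset

/-- The hypotheses of Q1 for `k`: `D = (V, A)` is a loopless finite digraph (parallel arcs allowed),
its underlying undirected graph is `k`-partition-connected (partitions are given by labellings
`p : V → ℕ`), the root `r₀` has in-degree `0`, all other vertices have in-degree at least `k`. -/
def Hyp (k : ℕ) {V A : Type} [Fintype V] [DecidableEq V] [Fintype A]
    (tail head : A → V) (r₀ : V) : Prop :=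
  (∀ a : A, tail a ≠ head a) ∧
  (∀ p : V → ℕ, k * ((univ.image p).card - 1) ≤
    Fintype.card {a : A // p (tail a) ≠ p (head a)}) ∧
  (∀ a : A, head a ≠ r₀) ∧
  (∀ v : V, v ≠ r₀ → k ≤ Fintype.card {a : A // head a = v})

/-- The conclusion of Q1 for `k`: the arcs can be partitioned into `k` parts, each of which is a
weakly connected spanning subgraph that enters every vertex other than `r₀`. -/
def Decomposable (k : ℕ) {V A : Type} (tail head : A → V) (r₀ : V) : Prop :=
  ∃ f : A → Fin k,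
    (∀ i : Fin k, (SimpleGraph.fromRel
      (fun u v : V => ∃ a : A, f a = i ∧ tail a = u ∧ head a = v)).Connected) ∧
    (∀ i : Fin k, ∀ v : V, v ≠ r₀ → ∃ a : A, f a = i ∧ head a = v)

/-! ### The digraphs -/

def tl : Fin 18 → Fin 9 := ![0, 0, 7, 7, 1, 2, 4, 3, 1, 4, 4, 2, 3, 3, 7, 7, 8, 8]
def hd : Fin 18 → Fin 9 := ![2, 3, 1, 4, 2, 4, 3, 1, 5, 5, 5, 6, 6, 6, 8, 8, 7, 7]
/-- the arcs that get multiplied -/
def mul : Fin 9 → Fin 18 := ![0, 2, 5, 6, 8, 9, 12, 14, 16]

abbrev Arc (m : ℕ) : Type := Fin 18 ⊕ (Fin m × Fin 9)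

def cls {m : ℕ} : Arc m → Fin 18 := Sum.elim id (fun x => mul x.2)

theorem card_arc (m : ℕ) (P : Fin 18 → Prop) [DecidablePred P] :
    Fintype.card {a : Arc m // P (cls a)} =
      (univ.filter (fun a : Fin 18 => P a)).card +
        m * (univ.filter (fun z : Fin 9 => P (mul z))).card := by
  rw [Fintype.card_subtype, card_filter, Fintype.sum_sum_type, Fintype.sum_prod_type,
    card_filter, card_filter]
  refine congrArg₂ (· + ·) rfl ?_
  have h : ∀ x ∈ (univ : Finset (Fin m)),
      (∑ z : Fin 9, if P (cls (Sum.inr (x, z) : Arc m)) then 1 else 0) =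
        ∑ z : Fin 9, if P (mul z) then 1 else 0 := fun x _ => rfl
  rw [Finset.sum_congr rfl h, sum_const, card_univ, Fintype.card_fin, smul_eq_mul]

/-- counting lemma for one spanning tree given by parent pointers -/
theorem tree_count {B : Type} [DecidableEq B] (tl hd : B → Fin 9)
    (par : Fin 9 → Fin 9) (rk : Fin 9 → ℕ) (arc : Fin 9 → B)
    (T : Finset B)
    (h1 : ∀ v, v ≠ 0 → rk (par v) < rk v)
    (h2 : ∀ v, v ≠ 0 → arc v ∈ T ∧
      ((tl (arc v) = v ∧ hd (arc v) = par v) ∨ (tl (arc v) = par v ∧ hd (arc v) = v)))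
    (h3 : ∀ u v, u ≠ 0 → v ≠ 0 → arc u = arc v → u = v) (p : Fin 9 → ℕ) :
    (univ.image p).card - 1 ≤ (T.filter (fun a => p (tl a) ≠ p (hd a))).card := by
  let C : Finset (Fin 9) := univ.filter (fun v => v ≠ 0 ∧ p v ≠ p (par v))
  have a1 : ∀ n, ∀ v, rk v = n → p v ∈ insert (p 0) (C.image p) := by
    intro n
    induction n using Nat.strong_induction_on with
    | _ n ih =>
      intro v hv
      by_cases h0 : v = 0
      · subst h0; exact mem_insert_self _ _
      · by_cases e : p v = p (par v)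
        · rw [e]
          exact ih _ (hv ▸ h1 v h0) _ rfl
        · exact mem_insert_of_mem (mem_image_of_mem _ (by simp [C, h0, e]))
  have a2 : (univ.image p).card ≤ C.card + 1 := by
    calc _ ≤ (insert (p 0) (C.image p)).card := by
          apply card_le_card
          intro x hx
          obtain ⟨v, -, rfl⟩ := mem_image.1 hx
          exact a1 _ v rfl
      _ ≤ (C.image p).card + 1 := card_insert_le _ _
      _ ≤ C.card + 1 := by have := card_image_le (s := C) (f := p); omega
  have a3 : C.card ≤ (T.filter (fun a => p (tl a) ≠ p (hd a))).card := by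
    apply card_le_card_of_injOn arc
    · intro v hv
      simp only [C, coe_filter, mem_univ, true_and, Set.mem_ofPred_eq] at hv ⊢
      obtain ⟨b1, b2⟩ := h2 v hv.1
      refine ⟨b1, ?_⟩
      rcases b2 with ⟨e1, e2⟩ | ⟨e1, e2⟩ <;> rw [e1, e2]
      · exact hv.2
      · exact hv.2.symm
    · intro u hu v hv e
      simp only [C, coe_filter, mem_univ, true_and, Set.mem_ofPred_eq] at hu hv
      exact h3 u v hu.1 hv.1 e
  omega

theorem pc2 (p : Fin 9 → ℕ) : 2 * ((univ.image p).card - 1) ≤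
    (univ.filter (fun a : Fin 18 => p (tl a) ≠ p (hd a))).card := by
  have t1 := tree_count tl hd ![0, 2, 0, 6, 3, 4, 2, 1, 7] ![0, 2, 1, 3, 4, 5, 2, 3, 4]
    ![0, 4, 0, 12, 6, 9, 11, 2, 14] {0, 4, 12, 6, 9, 11, 2, 14}
    (by decide) (by decide) (by decide) p
  have t2 := tree_count tl hd ![0, 3, 4, 0, 5, 1, 3, 4, 7] ![0, 2, 5, 1, 4, 3, 2, 5, 6]
    ![0, 7, 5, 1, 10, 8, 13, 3, 15] {7, 5, 1, 10, 8, 13, 3, 15}
    (by decide) (by decide) (by decide) p
  have hd' : Disjoint (({0, 4, 12, 6, 9, 11, 2, 14} : Finset (Fin 18)).filter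
      (fun a => p (tl a) ≠ p (hd a)))
      (({7, 5, 1, 10, 8, 13, 3, 15} : Finset (Fin 18)).filter (fun a => p (tl a) ≠ p (hd a))) :=
    disjoint_filter_filter (by decide)
  have := card_le_card (s := (({0, 4, 12, 6, 9, 11, 2, 14} : Finset (Fin 18)).filter
      (fun a => p (tl a) ≠ p (hd a))) ∪
      (({7, 5, 1, 10, 8, 13, 3, 15} : Finset (Fin 18)).filter (fun a => p (tl a) ≠ p (hd a))))
      (t := univ.filter (fun a => p (tl a) ≠ p (hd a))) (by
        intro a ha
        rw [mem_union, mem_filter, mem_filter] at ha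
        rw [mem_filter]
        exact ⟨mem_univ _, ha.elim (·.2) (·.2)⟩)
  rw [card_union_of_disjoint hd'] at this
  omega

theorem pc1 (p : Fin 9 → ℕ) : ((univ.image p).card - 1) ≤
    (univ.filter (fun z : Fin 9 => p (tl (mul z)) ≠ p (hd (mul z)))).card := by
  have t1 := tree_count (fun z => tl (mul z)) (fun z => hd (mul z))
    ![0, 5, 0, 4, 2, 4, 3, 1, 7] ![0, 4, 1, 3, 2, 3, 4, 5, 6]
    ![0, 4, 0, 3, 2, 5, 6, 1, 7] univ
    (by decide) (by decide) (by decide) p
  exact t1

theorem hyp (m : ℕ) : Hyp (m + 2) (fun a : Arc m => tl (cls a)) (fun a : Arc m => hd (cls a)) 0 := by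
  refine ⟨?_, ?_, ?_, ?_⟩
  · intro a
    exact (by decide : ∀ c : Fin 18, tl c ≠ hd c) (cls a)
  · intro p
    rw [card_arc m (fun c => p (tl c) ≠ p (hd c))]
    have h1 := pc1 p
    have h2 := pc2 p
    have h3 : m * ((univ.image p).card - 1) ≤
      m * (univ.filter (fun z : Fin 9 => p (tl (mul z)) ≠ p (hd (mul z)))).card :=
      Nat.mul_le_mul_left m h1
    have h4 : (m + 2) * ((univ.image p).card - 1) =
      m * ((univ.image p).card - 1) + 2 * ((univ.image p).card - 1) := by ring
    omega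
  · intro a
    exact (by decide : ∀ c : Fin 18, hd c ≠ 0) (cls a)
  · intro v hv
    rw [card_arc m (fun c => hd c = v)]
    have h1 : 2 ≤ (univ.filter (fun c : Fin 18 => hd c = v)).card := by
      revert hv; revert v; decide
    have h2 : 1 ≤ (univ.filter (fun z : Fin 9 => hd (mul z) = v)).card := by
      revert hv; revert v; decide
    have h3 := Nat.mul_le_mul_left m h2
    omega

theorem cut {V A : Type} {k : ℕ} (tail head : A → V) (f : A → Fin k) (i : Fin k)
    (h : (SimpleGraph.fromRel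
      (fun u v : V => ∃ a : A, f a = i ∧ tail a = u ∧ head a = v)).Connected)
    (χ : V → Bool) (u v : V) (huv : χ u ≠ χ v) :
    ∃ a, χ (tail a) ≠ χ (head a) ∧ f a = i := by
  obtain ⟨w⟩ := h u v
  induction w with
  | nil => exact absurd rfl huv
  | @cons x y z hadj w ih =>
    by_cases e : χ x = χ y
    · exact ih (e ▸ huv)
    · rw [SimpleGraph.fromRel_adj] at hadj
      rcases hadj.2 with ⟨a, h1, h2, h3⟩ | ⟨a, h1, h2, h3⟩
      · exact ⟨a, by rw [h2, h3]; exact e, h1⟩
      · exact ⟨a, by rw [h2, h3]; exact fun e' => e e'.symm, h1⟩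

theorem split {m : ℕ} (S T : Finset (Fin (m + 2))) (hS : S.card ≤ m + 1) (hT : T.card ≤ 1)
    (h : ∀ i, i ∈ S ∨ i ∈ T) : ∃ z, T = {z} ∧ S = {z}ᶜ := by
  have h1 : S ∪ T = univ := by ext i; simpa using h i
  have h2 : (S ∪ T).card = m + 2 := by rw [h1]; simp
  have h3 := card_union_le S T
  have h4 : T.card = 1 := by omega
  obtain ⟨z, rfl⟩ := card_eq_one.1 h4
  refine ⟨z, rfl, ?_⟩
  have h5 : z ∉ S := by
    intro hz
    have : S ∪ {z} = S := by
      ext i; simp only [mem_union, mem_singleton]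
      constructor
      · rintro (h | rfl) <;> assumption
      · exact Or.inl
    rw [this] at h2
    omega
  ext i
  simp only [mem_compl, mem_singleton]
  constructor
  · rintro hi rfl; exact h5 hi
  · intro hi
    exact (h i).resolve_right (by simpa using hi)

theorem not_dec (m : ℕ) :
    ¬ Decomposable (m + 2) (fun a : Arc m => tl (cls a)) (fun a : Arc m => hd (cls a)) 0 := by
  rintro ⟨f, h1, h2⟩
  let X : Fin 18 → Finset (Fin (m + 2)) := fun c => (univ.filter (fun a : Arc m => cls a = c)).image f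
  have hX : ∀ c, (X c).card ≤ 1 + m * (univ.filter (fun z : Fin 9 => mul z = c)).card := by
    intro c
    refine card_image_le.trans ?_
    have := card_arc m (fun d => d = c)
    rw [Fintype.card_subtype] at this
    rw [this]
    have h : (univ.filter (fun a : Fin 18 => a = c)).card = 1 := by
      clear this
      revert c; decide
    omega
  have hs : ∀ c ∈ ([1, 3, 4, 7, 11] : List (Fin 18)), (X c).card ≤ 1 := by
    intro c hc
    have h : (univ.filter (fun z : Fin 9 => mul z = c)).card = 0 := by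
      revert hc; revert c; decide
    have := hX c
    rw [h] at this
    simpa using this
  have hb : ∀ c ∈ ([0, 2, 5, 6, 8] : List (Fin 18)), (X c).card ≤ m + 1 := by
    intro c hc
    have h : (univ.filter (fun z : Fin 9 => mul z = c)).card = 1 := by
      revert hc; revert c; decide
    have := hX c
    rw [h] at this
    omega
  have C : ∀ (χ : Fin 9 → Bool) (v : Fin 9) (L : List (Fin 18)), χ 0 ≠ χ v →
      (∀ a, χ (tl a) ≠ χ (hd a) → a ∈ L) → ∀ i, ∃ c ∈ L, i ∈ X c := by
    intro χ v L h3 h4 i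
    obtain ⟨a, h5, h6⟩ := cut _ _ f i (h1 i) χ 0 v h3
    exact ⟨cls a, h4 _ h5, mem_image.2 ⟨a, by simp, h6⟩⟩
  have D : ∀ (v : Fin 9) (L : List (Fin 18)), v ≠ 0 →
      (∀ a, hd a = v → a ∈ L) → ∀ i, ∃ c ∈ L, i ∈ X c := by
    intro v L h3 h4 i
    obtain ⟨a, h5, h6⟩ := h2 i v h3
    exact ⟨cls a, h4 _ h6, mem_image.2 ⟨a, by simp, h5⟩⟩
  have e01 : ∀ i, i ∈ X 0 ∨ i ∈ X 1 := by
    simpa using C (fun v => decide (v ≠ 0)) 1 [0, 1] (by decide) (by decide)
  have e23 : ∀ i, i ∈ X 2 ∨ i ∈ X 3 := by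
    simpa using C (fun v => decide (v = 7 ∨ v = 8)) 7 [2, 3] (by decide) (by decide)
  have e04 : ∀ i, i ∈ X 0 ∨ i ∈ X 4 := by
    simpa using D 2 [0, 4] (by decide) (by decide)
  have e53 : ∀ i, i ∈ X 5 ∨ i ∈ X 3 := by
    simpa using D 4 [5, 3] (by decide) (by decide)
  have e61 : ∀ i, i ∈ X 6 ∨ i ∈ X 1 := by
    simpa using D 3 [6, 1] (by decide) (by decide)
  have e27 : ∀ i, i ∈ X 2 ∨ i ∈ X 7 := by
    simpa using D 1 [2, 7] (by decide) (by decide)
  have c1 : ∀ i, i ∈ X 3 ∨ i ∈ X 4 ∨ i ∈ X 7 ∨ i ∈ X 8 := by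
    simpa using C (fun v => decide (v = 1 ∨ v = 7 ∨ v = 8)) 7 [3, 4, 7, 8] (by decide) (by decide)
  have c2 : ∀ i, i ∈ X 2 ∨ i ∈ X 5 ∨ i ∈ X 6 ∨ i ∈ X 8 := by
    simpa using C (fun v => decide (v = 4 ∨ v = 5 ∨ v = 7 ∨ v = 8)) 7 [2, 5, 6, 8] (by decide)
      (by decide)
  have c3 : ∀ i, i ∈ X 0 ∨ i ∈ X 6 ∨ i ∈ X 7 ∨ i ∈ X 11 := by
    simpa using C (fun v => decide (v = 1 ∨ v = 2 ∨ v = 4 ∨ v = 5 ∨ v = 7 ∨ v = 8)) 7
      [0, 6, 7, 11] (by decide) (by decide)
  have c4 : ∀ i, i ∈ X 1 ∨ i ∈ X 4 ∨ i ∈ X 5 ∨ i ∈ X 11 := by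
    simpa using C (fun v => decide (v ≠ 0 ∧ v ≠ 2)) 7 [1, 4, 5, 11] (by decide) (by decide)
  obtain ⟨z, x1, x0⟩ := split (X 0) (X 1) (hb 0 (by decide)) (hs 1 (by decide)) e01
  obtain ⟨w, x3, x2⟩ := split (X 2) (X 3) (hb 2 (by decide)) (hs 3 (by decide)) e23
  have x4 : X 4 = {z} := by
    obtain ⟨z', y4, y0⟩ := split (X 0) (X 4) (hb 0 (by decide)) (hs 4 (by decide)) e04
    rw [x0] at y0
    have : z = z' := by simpa using congrArg compl y0
    rw [y4, this]
  have x5 : X 5 = {w}ᶜ := by
    obtain ⟨w', y3, y5⟩ := split (X 5) (X 3) (hb 5 (by decide)) (hs 3 (by decide)) e53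
    rw [x3] at y3
    have : w = w' := by simpa using y3
    rw [y5, this]
  have x6 : X 6 = {z}ᶜ := by
    obtain ⟨w', y3, y5⟩ := split (X 6) (X 1) (hb 6 (by decide)) (hs 1 (by decide)) e61
    rw [x1] at y3
    have : z = w' := by simpa using y3
    rw [y5, this]
  have x7 : X 7 = {w} := by
    obtain ⟨z', y4, y0⟩ := split (X 2) (X 7) (hb 2 (by decide)) (hs 7 (by decide)) e27
    rw [x2] at y0
    have : w = z' := by simpa using congrArg compl y0
    rw [y4, this]
  rw [x3, x4, x7] at c1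
  rw [x2, x5, x6] at c2
  rw [x0, x6, x7] at c3
  rw [x1, x4, x5] at c4
  by_cases hwz : w = z
  · subst hwz
    have : X 8 = univ := by
      ext i
      simp only [mem_univ, iff_true]
      by_cases hi : i = w
      · subst hi
        simpa using c2 i
      · simpa [hi] using c1 i
    have h8 := hb 8 (by decide)
    rw [this] at h8
    simp at h8
  · have hz : z ∈ X 11 := by
      have := c3 z
      simpa [Ne.symm hwz] using this
    have hw : w ∈ X 11 := by
      have := c4 w
      simpa [hwz] using this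
    exact hwz (card_le_one.1 (hs 11 (by decide)) w hw z hz)

/-- `k = 1` -/
theorem one {V A : Type} [Fintype V] [DecidableEq V] [Fintype A]
    (tail head : A → V) (r₀ : V) (h : Hyp 1 tail head r₀) : Decomposable 1 tail head r₀ := by
  obtain ⟨hne, hpc, -, hin⟩ := h
  refine ⟨fun _ => 0, ?_, ?_⟩
  · intro i
    have hi : (fun u v : V => ∃ a : A, (0 : Fin 1) = i ∧ tail a = u ∧ head a = v) =
      (fun u v : V => ∃ a : A, tail a = u ∧ head a = v) := by
      funext u v
      simp [Subsingleton.elim (0 : Fin 1) i]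
    rw [hi]
    have : Nonempty V := ⟨r₀⟩
    refine SimpleGraph.Connected.mk ?_
    intro u v
    by_contra hcon
    classical
    let G := SimpleGraph.fromRel (fun u v : V => ∃ a : A, tail a = u ∧ head a = v)
    let p : V → ℕ := fun w => if G.Reachable u w then 0 else 1
    have hp : 2 ≤ (univ.image p).card := by
      have : ({0, 1} : Finset ℕ) ⊆ univ.image p := by
        intro x hx
        simp only [mem_insert, mem_singleton] at hx
        rcases hx with rfl | rfl
        · exact mem_image.2 ⟨u, mem_univ _, by simp [p]⟩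
        · exact mem_image.2 ⟨v, mem_univ _, by simp [p, G, hcon]⟩
      simpa using card_le_card this
    have h1 := hpc p
    have h2 : 0 < Fintype.card {a : A // p (tail a) ≠ p (head a)} := by omega
    obtain ⟨a, ha⟩ := Fintype.card_pos_iff.1 h2
    have hadj : G.Adj (tail a) (head a) := by
      rw [SimpleGraph.fromRel_adj]
      exact ⟨hne a, Or.inl ⟨a, rfl, rfl⟩⟩
    apply ha
    have : G.Reachable u (tail a) ↔ G.Reachable u (head a) :=
      ⟨fun h => h.trans hadj.reachable, fun h => h.trans hadj.symm.reachable⟩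
    simp only [p, this]
  · intro i v hv
    have := hin v hv
    obtain ⟨a, ha⟩ := Fintype.card_pos_iff.1 (show 0 < Fintype.card {a : A // head a = v} by omega)
    exact ⟨a, Subsingleton.elim _ _, ha⟩

/-- (1) For `k ≥ 1` the statement of Q1 with this fixed `k` is true if and only if `k = 1`.
(2) For every `k ≥ 2` there is a counterexample with nine vertices and `9 k` arcs. -/
theorem result :
    (∀ k : ℕ, 0 < k →
      ((∀ (V : Type) [Fintype V] [DecidableEq V] (A : Type) [Fintype A] (tail head : A → V)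
        (r₀ : V), Hyp k tail head r₀ → Decomposable k tail head r₀) ↔ k = 1)) ∧
    (∀ k : ℕ, 2 ≤ k → ∃ (tail head : Fin (9 * k) → Fin 9),
      Hyp k tail head 0 ∧ ¬ Decomposable k tail head 0) := by
  have key : ∀ k : ℕ, 2 ≤ k → ∃ (tail head : Fin (9 * k) → Fin 9),
      Hyp k tail head 0 ∧ ¬ Decomposable k tail head 0 := by
    intro k hk
    obtain ⟨m, rfl⟩ : ∃ m, k = m + 2 := ⟨k - 2, by omega⟩
    have hc : Fintype.card (Arc m) = 9 * (m + 2) := by
      simp [Arc]; ring
    let e : Fin (9 * (m + 2)) ≃ Arc m := (Fintype.equivFinOfCardEq hc).symm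
    refine ⟨fun a => tl (cls (e a)), fun a => hd (cls (e a)), ?_, ?_⟩
    · obtain ⟨h1, h2, h3, h4⟩ := hyp m
      refine ⟨fun a => h1 _, ?_, fun a => h3 _, ?_⟩
      · intro p
        refine (h2 p).trans (le_of_eq (Fintype.card_congr ?_))
        exact (Equiv.subtypeEquiv e (fun a => Iff.rfl)).symm
      · intro v hv
        refine (h4 v hv).trans (le_of_eq (Fintype.card_congr ?_))
        exact (Equiv.subtypeEquiv e (fun a => Iff.rfl)).symm
    · rintro ⟨f, h1, h2⟩
      apply not_dec m
      refine ⟨fun a => f (e.symm a), ?_, ?_⟩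
      · intro i
        have := h1 i
        convert this using 4
        constructor
        · rintro ⟨a, h1, h2, h3⟩
          exact ⟨e.symm a, h1, by simpa using h2, by simpa using h3⟩
        · rintro ⟨a, h1, h2, h3⟩
          exact ⟨e a, by simpa using h1, h2, h3⟩
      · intro i v hv
        obtain ⟨a, ha1, ha2⟩ := h2 i v hv
        exact ⟨e a, by simpa using ha1, ha2⟩
  refine ⟨?_, key⟩
  intro k hk
  constructor
  · intro h
    by_contra hk1
    obtain ⟨tail, head, h1, h2⟩ := key k (by omega)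
    exact h2 (h (Fin 9) (Fin (9 * k)) tail head 0 h1)
  · rintro rfl V _ _ A _ tail head r₀ h
    exact one tail head r₀ h

end Pool.Agent.Results.MP_2dea4c_co.AllK
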